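import Mathlib

namespace Pool.Agent.Results.MP_071e18_gt.Kite

open Set MeasureTheory EuclideanGeometry Complex

theorem ni {K : Set ℂ} (a b c : ℝ) (h0 : 0 < a ^ 2 + b ^ 2) (hK : ∀ z ∈ K, a * z.re + b * z.im ≤ c)
    {z : ℂ} (hz : a * z.re + b * z.im = c) : z ∉ interior K := fun h => by
  have t : Filter.Tendsto (fun t : ℝ => z + t * (a + b * I)) (nhds 0) (nhds z) :=
    Continuous.tendsto' (by fun_prop) _ _ (by simp)
  obtain ⟨t, h1, h2⟩ := ((t.eventually (mem_interior_iff_mem_nhds.1 h)).filter_mono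
    (nhdsWithin_le_nhds (s := Ioi 0))).and self_mem_nhdsWithin |>.exists
  have := hK _ h1
  simp at this h2
  nlinarith [mul_pos h2 h0]

def K : Set ℂ := {z | 0 ≤ z.im ∧ 4 * z.im ≤ 3 * z.re ∧ 24 * z.re - 7 * z.im ≤ 600}

def L : Set ℂ := {z | -1 ≤ z.im ∧ 4 * z.im ≤ 3 * z.re + 5 ∧ 3 * z.re + 4 * z.im ≤ 107}

theorem hK : convexHull ℝ {0, 32 + 24 * I, 25} = K := by
  refine (convexHull_min ?_ ?_).antisymm fun z ⟨h1, h2, h3⟩ => ?_
  · rintro _ (rfl | rfl | rfl) <;> simp [K] <;> norm_num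
  · rintro x ⟨x1, x2, x3⟩ y ⟨y1, y2, y3⟩ a b ha hb hab
    refine ⟨?_, ?_, ?_⟩ <;> simp <;> nlinarith
  · refine mem_convexHull_of_exists_fintype ![(600 - 24 * z.re + 7 * z.im) / 600, z.im / 24,
      (3 * z.re - 4 * z.im) / 75] ![0, 32 + 24 * I, 25] (fun i => ?_) ?_ (fun i => ?_) ?_
    · fin_cases i <;> simp <;> linarith
    · simp [Fin.sum_univ_three]; ring
    · fin_cases i <;> simp
    · apply Complex.ext <;> simp [Fin.sum_univ_three]
      ring

theorem hL : (fun z => (-4 + 3 * I) / 5 * z + (37 - I)) '' K = L := by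
  ext z
  constructor
  · rintro ⟨z, ⟨h1, h2, h3⟩, rfl⟩
    refine ⟨?_, ?_, ?_⟩ <;> simp <;> linarith
  · rintro ⟨h1, h2, h3⟩
    refine ⟨(-4 - 3 * I) / 5 * (z - (37 - I)), ⟨?_, ?_, ?_⟩, ?_⟩
    · simp; linarith
    · simp; linarith
    · simp; linarith
    · apply Complex.ext <;> simp <;> ring

theorem cK : IsClosed K := by
  refine IsClosed.and ?_ (IsClosed.and ?_ ?_) <;> exact isClosed_le (by fun_prop) (by fun_prop)

theorem cL : IsClosed L := by
  refine IsClosed.and ?_ (IsClosed.and ?_ ?_) <;> exact isClosed_le (by fun_prop) (by fun_prop)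

theorem iK {z : ℂ} (h : 0 < z.im ∧ 4 * z.im < 3 * z.re ∧ 24 * z.re - 7 * z.im < 600) :
    z ∈ interior K := by
  refine interior_maximal (t := {z : ℂ | 0 < z.im ∧ 4 * z.im < 3 * z.re ∧ 24 * z.re - 7 * z.im < 600})
    (fun _ h => And.intro h.1.le ⟨h.2.1.le, h.2.2.le⟩) ?_ h
  refine IsOpen.and ?_ (IsOpen.and ?_ ?_) <;> exact isOpen_lt (by fun_prop) (by fun_prop)

theorem iL {z : ℂ} (h : -1 < z.im ∧ 4 * z.im < 3 * z.re + 5 ∧ 3 * z.re + 4 * z.im < 107) :
    z ∈ interior L := by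
  refine interior_maximal
    (t := {z : ℂ | -1 < z.im ∧ 4 * z.im < 3 * z.re + 5 ∧ 3 * z.re + 4 * z.im < 107})
    (fun _ h => And.intro h.1.le ⟨h.2.1.le, h.2.2.le⟩) ?_ h
  refine IsOpen.and ?_ (IsOpen.and ?_ ?_) <;> exact isOpen_lt (by fun_prop) (by fun_prop)

theorem len (x y : ℂ) (d : ℝ) (h0 : 0 ≤ d) (h : (x.re - y.re) ^ 2 + (x.im - y.im) ^ 2 = d ^ 2) :
    μH[1] (segment ℝ x y) = ENNReal.ofReal d := by
  rw [hausdorffMeasure_segment, edist_dist, dist_eq_re_im, h, Real.sqrt_sq h0]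

theorem ang (x y : ℂ) (p q c : ℝ) (hp : 0 < p) (hq : 0 < q) (h1 : x.re ^ 2 + x.im ^ 2 = p ^ 2)
    (h2 : y.re ^ 2 + y.im ^ 2 = q ^ 2) (h : x.re * y.re + x.im * y.im = c * (p * q)) :
    InnerProductGeometry.angle x y = Real.arccos c := by
  unfold InnerProductGeometry.angle
  rw [norm_eq_sqrt_sq_add_sq, norm_eq_sqrt_sq_add_sq, h1, h2, Real.sqrt_sq hp.le, Real.sqrt_sq hq.le]
  congr 1
  rw [div_eq_iff (by positivity), ← h]
  simp [mul_comm]

theorem result : ∃ A B C : ℂ, AffineIndependent ℝ ![A, B, C] ∧ ∠ B A C ≤ ∠ A B C ∧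
    ∠ B A C ≤ ∠ A C B ∧ ∃ (u w : ℂ) (K K' : Set ℂ), ‖u‖ = 1 ∧ K = convexHull ℝ {A, B, C} ∧
      K' = (fun z => u * z + w) '' K ∧ (interior K ∩ interior K').Nonempty ∧ K ≠ K' ∧
      1 / Real.sin (∠ B A C / 2) <
        (μH[1] (frontier K ∩ K')).toReal / (μH[1] (frontier K' ∩ K)).toReal := by
  have a1 : ∠ (32 + 24 * I) 0 25 = Real.arccos (4 / 5) :=
    ang _ _ 40 25 _ (by norm_num) (by norm_num) (by simp; norm_num) (by simp) (by simp; norm_num)
  have a2 : ∠ 0 (32 + 24 * I) 25 = Real.arccos (4 / 5) :=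
    ang _ _ 40 25 _ (by norm_num) (by norm_num) (by simp; norm_num) (by simp; norm_num)
      (by simp; norm_num)
  have a3 : ∠ 0 25 (32 + 24 * I) = Real.arccos (-7 / 25) :=
    ang _ _ 25 25 _ (by norm_num) (by norm_num) (by simp) (by simp; norm_num) (by simp; norm_num)
  refine ⟨0, 32 + 24 * I, 25, ?_, by rw [a1, a2], ?_, (-4 + 3 * I) / 5, 37 - I, K, L, ?_, hK.symm,
    hL.symm, ⟨10 + I, iK (by simp; norm_num), iL (by simp; norm_num)⟩, fun h => ?_, ?_⟩
  · rw [affineIndependent_iff_not_collinear_set, collinear_iff_eq_or_eq_or_angle_eq_zero_or_angle_eq_pi,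
      a2]
    norm_num [Complex.ext_iff]
  · rw [a1, a3]
    exact Real.arccos_le_arccos (by norm_num)
  · rw [norm_eq_sqrt_sq_add_sq]
    simp
    norm_num
  · have : (-I) ∈ L := by simp [L]; norm_num
    rw [← h] at this
    norm_num [K] at this
  have s : 5 / 16 < Real.sin (∠ (32 + 24 * I) 0 25 / 2) := by
    rw [a1, Real.sin_half_eq_sqrt (Real.arccos_nonneg _)
      ((Real.arccos_le_pi _).trans (by linarith [Real.pi_pos])),
      Real.cos_arccos (by norm_num) (by norm_num)]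
    exact Real.lt_sqrt_of_sq_lt (by norm_num)
  have n1 : μH[1] (frontier K ∩ L) ≠ ⊤ := by
    refine ne_top_of_le_ne_top ?_ (measure_mono (t := segment ℝ 0 25 ∪ (segment ℝ 0 (32 + 24 * I) ∪
      segment ℝ 25 (32 + 24 * I))) ?_)
    · refine (measure_union_lt_top ?_ (measure_union_lt_top ?_ ?_)).ne <;>
        exact (hausdorffMeasure_segment _ _).trans_lt (edist_lt_top _ _)
    rw [cK.frontier_eq]
    rintro z ⟨⟨⟨h1, h2, h3⟩, h⟩, -⟩
    rcases h1.eq_or_lt with e | h1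
    · refine .inl ⟨1 - z.re / 25, z.re / 25, by linarith, by linarith, by ring, ?_⟩
      apply Complex.ext <;> simp [← e]
    rcases h2.eq_or_lt with e | h2
    · refine .inr (.inl ⟨1 - z.im / 24, z.im / 24, by linarith, by linarith, by ring, ?_⟩)
      apply Complex.ext <;> simp
      linarith
    rcases h3.eq_or_lt with e | h3
    · refine .inr (.inr ⟨1 - z.im / 24, z.im / 24, by linarith, by linarith, by ring, ?_⟩)
      apply Complex.ext <;> simp
      linarith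
    exact (h (iK ⟨h1, h2, h3⟩)).elim
  have n2 : ENNReal.ofReal 40 ≤ μH[1] (frontier K ∩ L) := by
    rw [show (40 : ℝ) = 25 + 15 by norm_num, ENNReal.ofReal_add (by norm_num) (by norm_num),
      ← len 0 25 25 (by norm_num) (by simp),
      ← len (4 + 3 * I) (16 + 12 * I) 15 (by norm_num) (by simp; norm_num), ← measure_union ?_
        (by rw [segment_eq_image]; exact (isCompact_Icc.image (by fun_prop)).measurableSet), cK.frontier_eq]
    · refine measure_mono ?_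
      rintro _ (⟨a, b, ha, hb, hab, rfl⟩ | ⟨a, b, ha, hb, hab, rfl⟩)
      · refine ⟨⟨⟨?_, ?_, ?_⟩, ni 0 (-1) 0 (by norm_num) (fun z h => by linarith [h.1]) ?_⟩,
          ?_, ?_, ?_⟩ <;> simp <;> linarith
      · refine ⟨⟨⟨?_, ?_, ?_⟩, ni (-3) 4 0 (by norm_num) (fun z h => by linarith [h.2.1]) ?_⟩,
          ?_, ?_, ?_⟩ <;> simp <;> linarith
    · rw [Set.disjoint_left]
      rintro _ ⟨a, b, ha, hb, hab, rfl⟩ ⟨c, d, hc, hd, hcd, h⟩
      have := congrArg im h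
      simp at this
      linarith
  have n3 : μH[1] (frontier L ∩ K) ≤ ENNReal.ofReal (25 / 2) := by
    rw [← len (17 + 14 * I) (27 + 13 / 2 * I) (25 / 2) (by norm_num) (by simp; norm_num),
      cL.frontier_eq]
    refine measure_mono ?_
    rintro z ⟨⟨⟨h1, h2, h3⟩, h⟩, k1, k2, k3⟩
    rcases h3.eq_or_lt with e | h3
    · refine ⟨(27 - z.re) / 10, (z.re - 17) / 10, by linarith, by linarith, by ring, ?_⟩
      apply Complex.ext <;> simp <;> linarith
    exact (h (iL ⟨by linarith, by linarith, h3⟩)).elim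
  have n4 : ENNReal.ofReal 5 ≤ μH[1] (frontier L ∩ K) := by
    rw [← len (21 + 11 * I) (25 + 8 * I) 5 (by norm_num) (by simp; norm_num), cL.frontier_eq]
    refine measure_mono ?_
    rintro _ ⟨a, b, ha, hb, hab, rfl⟩
    refine ⟨⟨⟨?_, ?_, ?_⟩, ni 3 4 107 (by norm_num) (fun z h => h.2.2) ?_⟩,
      ?_, ?_, ?_⟩ <;> simp <;> linarith
  have m2 := (ENNReal.ofReal_le_iff_le_toReal n1).1 n2
  have m3 := ENNReal.toReal_le_of_le_ofReal (by norm_num) n3
  have m4 := (ENNReal.ofReal_le_iff_le_toReal (ne_top_of_le_ne_top ENNReal.ofReal_ne_top n3)).1 n4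
  rw [div_lt_div_iff₀ (by linarith) (by linarith)]
  nlinarith

end Pool.Agent.Results.MP_071e18_gt.Kite
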